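import Pool.Agent.Helper95.RK.GoalsC
import Pool.Agent.Helper95.RK.Basics

set_option autoImplicit false

open Complex Metric Set Filter Topology MeasureTheory
open scoped ContDiff ComplexConjugate ComplexOrder Manifold Matrix

namespace Pool.Agent.Helper26.RK

open Pool.Agent.Helper95.Lin Pool.Agent.Helper16.Abund Pool.Agent.Helper92.Orb
open Pool.Agent.Helper10.SP Pool.Agent.Helper95.RK

universe u v

theorem lev_add_const {n : ℕ} (f : Cn n → ℝ) (K : ℝ) (x e : Cn n) :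
    lev (fun z => f z + K) x e = lev f x e := by
  simp only [lev, hess, fderiv_add_const]

/-- Scaling by `s`. -/
noncomputable def scl (n : ℕ) (s : ℝ) : Cn n →L[ℂ] Cn n := (s : ℂ) • ContinuousLinearMap.id ℂ (Cn n)

theorem scl_apply (n : ℕ) (s : ℝ) (x : Cn n) : scl n s x = (s : ℂ) • x := rfl

theorem scl_det (n : ℕ) (s : ℝ) (hs : 0 < s) : (scl n s).det ≠ 0 := by
  have : (scl n s).det = (s : ℂ) ^ Module.finrank ℂ (Cn n) := by
    unfold ContinuousLinearMap.det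
    have h1 : ((scl n s : Cn n →L[ℂ] Cn n) : Cn n →ₗ[ℂ] Cn n) = (s : ℂ) • LinearMap.id := rfl
    rw [h1, LinearMap.det_smul, LinearMap.det_id, mul_one]
  rw [this]
  exact pow_ne_zero _ (by exact_mod_cast hs.ne')

theorem hermi_single {k : ℕ} (A : Matrix (Fin k) (Fin k) ℂ) (i j : Fin k) :
    hermi A (Pi.single i 1) (Pi.single j 1) = A i j := by
  unfold hermi
  simp [Pi.single_apply]

theorem hermi_smul {k : ℕ} (A : Matrix (Fin k) (Fin k) ℂ) (s : ℝ) (u w : Fin k → ℂ) :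
    hermi A ((s : ℂ) • u) ((s : ℂ) • w) = ((s ^ 2 : ℝ) : ℂ) * hermi A u w := by
  unfold hermi
  rw [Finset.mul_sum]
  refine Finset.sum_congr rfl fun i _ => ?_
  rw [Finset.mul_sum]
  refine Finset.sum_congr rfl fun j _ => ?_
  simp only [Pi.smul_apply, smul_eq_mul, map_mul, Complex.conj_ofReal]
  push_cast
  ring

theorem spec_one (hSPEC : S_SPECK.{u, v}) (hPARB : S_PARBK.{u, v}) (hPMB : S_PMB.{u, v})
    (hWCH : S_WCH) {b k : ℕ} {G : Type u}
    {M : Type v} [Group G] [MulAction G M]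
    [TopologicalSpace M] [T2Space M] [ConnectedSpace M] [ChartedSpace (Fin (b + k) → ℂ) M]
    [IsManifold 𝓘(ℂ, Fin (b + k) → ℂ) ω M] {h q : M → Matrix (Fin (b + k)) (Fin (b + k)) ℂ}
    {v : M → ℝ} (hb : 0 < b) (D : DataK b k G M h v) (F : FlatFol b k G M q v) (p : M) :
    ∃ (ψ : Cn (b + k) → M) (Ψ : Cn b → ℝ) (Hf : Cn b → Matrix (Fin k) (Fin k) ℂ),
      SpecK v q (ball (0 : Cn b) 6) (ball (0 : Cn k) 6) ψ Ψ Hf ∧ ψ 0 = p := by
  obtain ⟨r, hr, ψ, Ψ, Hf, ⟨hpar, hsm, hpos, hpot, hsmH, hposH, hleaf⟩, -, h0⟩ := hSPEC hb D F p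
  have hs : 0 < r / 6 := by positivity
  have hmn : ∀ n : ℕ, MapsTo (scl n (r / 6)) (ball 0 6) (ball 0 r) := by
    intro n z hz
    rw [mem_ball_zero_iff] at hz ⊢
    rw [scl_apply, norm_smul, Complex.norm_real, Real.norm_eq_abs, abs_of_pos hs]
    nlinarith
  have hm := hmn b
  have hV' : IsOpen (prodK (ball (0 : Cn b) 6) (ball (0 : Cn k) 6)) :=
    isOpen_prodK isOpen_ball isOpen_ball
  have hmV : MapsTo (scl (b + k) (r / 6)) (prodK (ball (0 : Cn b) 6) (ball (0 : Cn k) 6))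
      (prodK (ball (0 : Cn b) r) (ball (0 : Cn k) r)) := by
    intro x hx
    exact ⟨hm hx.1, hmn k hx.2⟩
  have hfd : ∀ x, fderiv ℂ (scl (b + k) (r / 6)) x = scl (b + k) (r / 6) := fun x =>
    (scl (b + k) (r / 6)).fderiv
  have hdet : ∀ x ∈ prodK (ball (0 : Cn b) 6) (ball (0 : Cn k) 6),
      (fderiv ℂ (scl (b + k) (r / 6)) x).det ≠ 0 := fun x _ => by
    rw [hfd x]; exact scl_det _ _ hs
  obtain ⟨hp1, hp2⟩ := (hPARB D).1 (prodK (ball (0 : Cn b) r) (ball (0 : Cn k) r))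
    (prodK (ball (0 : Cn b) 6) (ball (0 : Cn k) 6)) ψ
    (scl (b + k) (r / 6)) hpar hV' (scl (b + k) (r / 6)).differentiable.differentiableOn hmV
    hdet
  have hpm := (hPMB D q F.herm F.inv).2 (prodK (ball (0 : Cn b) r) (ball (0 : Cn k) r))
    (prodK (ball (0 : Cn b) 6) (ball (0 : Cn k) 6)) ψ
    (scl (b + k) (r / 6)) hpar hV' (scl (b + k) (r / 6)).differentiable.differentiableOn hmV
    hdet
  refine ⟨ψ ∘ scl (b + k) (r / 6), fun z => Ψ (scl b (r / 6) z) +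
    Real.log (‖(scl (b + k) (r / 6)).det‖ ^ 2),
    fun z => (((r / 6) ^ 2 : ℝ) : ℂ) • Hf (scl b (r / 6) z),
    ⟨hp1, ?_, ?_, ?_, ?_, ?_, ?_⟩, ?_⟩
  · refine ContDiffOn.add ?_ contDiffOn_const
    refine hsm.comp ?_ hm
    exact ((scl b (r / 6)).restrictScalars ℝ).contDiff.contDiffOn
  · intro z hz e he
    rw [lev_add_const]
    have h1 := (hWCH.1 (ball (0 : Cn b) r) (ball (0 : Cn b) 6) isOpen_ball isOpen_ball
      (scl b (r / 6)) (scl b (r / 6)).differentiable.differentiableOn hm).2 Ψ hsm z hz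
    have h2 := h1.1 e
    have h3 : lev (fun z => Ψ (scl b (r / 6) z)) z e = lev (Ψ ∘ scl b (r / 6)) z e := rfl
    rw [h3, h2, (scl b (r / 6)).fderiv]
    refine hpos _ (hm hz) _ ?_
    rw [scl_apply]
    exact smul_ne_zero (by exact_mod_cast hs.ne') he
  · intro x hx
    rw [(hp2 x hx).2, hpot _ (hmV hx), hfd x]
    rfl
  · intro i j
    have h1 : ContDiffOn ℝ ∞ (fun z => Hf (scl b (r / 6) z) i j) (ball (0 : Cn b) 6) :=
      (hsmH i j).comp ((scl b (r / 6)).restrictScalars ℝ).contDiff.contDiffOn hm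
    exact contDiffOn_const.mul h1
  · intro z hz
    have h1 := hposH _ (hm hz)
    refine h1.smul ?_
    have : (0 : ℝ) < (r / 6) ^ 2 := by positivity
    exact_mod_cast this
  · intro x hx
    ext i j
    have h1 := hpm x hx (Pi.single (Fin.natAdd b i) 1) (Pi.single (Fin.natAdd b j) 1)
    have h5 : hermi (pm (b + k) q ψ ((scl (b + k) (r / 6)) x))
        ((fderiv ℂ (⇑(scl (b + k) (r / 6))) x) (Pi.single (Fin.natAdd b i) 1))
          ((fderiv ℂ (⇑(scl (b + k) (r / 6))) x) (Pi.single (Fin.natAdd b j) 1)) =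
        (((r / 6) ^ 2 : ℝ) : ℂ) * hermi (pm (b + k) q ψ ((scl (b + k) (r / 6)) x))
          (Pi.single (Fin.natAdd b i) 1) (Pi.single (Fin.natAdd b j) 1) := by
      rw [hfd x]
      exact hermi_smul _ _ _ _
    rw [h5, hermi_single, hermi_single] at h1
    have h2 : pm (b + k) q ψ (scl (b + k) (r / 6) x) (Fin.natAdd b i) (Fin.natAdd b j) =
        Hf (base (scl (b + k) (r / 6) x)) i j := congrFun (congrFun (hleaf _ (hmV hx)) i) j
    rw [h2] at h1
    exact h1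
  · change ψ (scl (b + k) (r / 6) 0) = p
    rw [map_zero, h0]

theorem finspk (hSPEC : S_SPECK.{u, v}) (hPARB : S_PARBK.{u, v}) (hPMB : S_PMB.{u, v})
    (hWCH : S_WCH) : S_FINSPK.{u, v} := by
  intro b k G M _ _ _ _ _ _ _ h q v hb D F
  choose ψ Ψ Hf hS h0 using fun p : M => spec_one hSPEC hPARB hPMB hWCH hb D F p
  obtain ⟨K, hK, hcov⟩ := D.act.cocompact
  have hsub : prodK (ball (0 : Cn b) 1) (ball (0 : Cn k) 1) ⊆
      prodK (ball (0 : Cn b) 6) (ball (0 : Cn k) 6) :=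
    fun x hx => ⟨ball_subset_ball (by norm_num) hx.1, ball_subset_ball (by norm_num) hx.2⟩
  have hopen : ∀ p : M, IsOpen (ψ p '' prodK (ball (0 : Cn b) 1) (ball (0 : Cn k) 1)) := fun p =>
    (hPARB D).2.2.2.1 _ (ψ p) (hS p).par _ hsub (isOpen_prodK isOpen_ball isOpen_ball)
  have hmem : ∀ p : M, p ∈ ψ p '' prodK (ball (0 : Cn b) 1) (ball (0 : Cn k) 1) := by
    intro p
    refine ⟨0, ⟨?_, ?_⟩, h0 p⟩
    · exact mem_ball_self one_pos
    · exact mem_ball_self one_pos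
  obtain ⟨t, ht⟩ := hK.elim_finite_subcover
    (fun p : M => ψ p '' prodK (ball (0 : Cn b) 1) (ball (0 : Cn k) 1)) hopen
    (fun p _ => mem_iUnion.mpr ⟨p, hmem p⟩)
  obtain ⟨x₀⟩ := (inferInstance : Nonempty M)
  obtain ⟨γ₀, hγ₀⟩ := hcov x₀
  have hpos : 0 < t.card := by
    obtain ⟨p, hp⟩ := mem_iUnion.mp (ht hγ₀)
    obtain ⟨hpt, -⟩ := mem_iUnion.mp hp
    exact Finset.card_pos.mpr ⟨p, hpt⟩
  refine ⟨t.card, fun i => ψ (t.equivFin.symm i), fun i => Ψ (t.equivFin.symm i),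
    fun i => Hf (t.equivFin.symm i), hpos, fun i => hS _, ?_⟩
  intro p
  obtain ⟨γ, hγ⟩ := hcov p
  obtain ⟨q', hq⟩ := mem_iUnion.mp (ht hγ)
  obtain ⟨hqt, x, hx, hxe⟩ := mem_iUnion.mp hq
  refine ⟨γ, t.equivFin ⟨q', hqt⟩, x, hx, ?_⟩
  simp only [Equiv.symm_apply_apply]
  exact hxe.symm

end Pool.Agent.Helper26.RK
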